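import Mathlib.Order.Lattice.Nat
import Mathlib.Data.Set.Card
import Mathlib.Combinatorics.SimpleGraph.Copy

/-!
Weak saturation numbers: definitions.
-/

namespace Pool.Agent.MP_2640cc_co

open SimpleGraph

/-- `G` is weakly `F`-saturated: `G` has no copy of `F`, and the edges of the complete graph
that are missing from `G` can be listed (each exactly once) as `e_0, ..., e_{m-1}` so that for every
`i` the graph `G + {e_0, ..., e_i}` has a copy of `F` that uses the edge `e_i`. -/
def WeaklySaturated {V W : Type} (F : SimpleGraph W) (G : SimpleGraph V) : Prop :=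
  F.Free G ∧
    ∃ l : List (Sym2 V), l.Nodup ∧
      (∀ e, e ∈ l ↔ e ∈ (⊤ : SimpleGraph V).edgeSet ∧ e ∉ G.edgeSet) ∧
      ∀ i : Fin l.length,
        ∃ c : F.Copy (G ⊔ fromEdgeSet {e | e ∈ l.take (i.val + 1)}),
          ∃ x y : W, F.Adj x y ∧ s(c x, c y) = l.get i

/-- The weak saturation number: the least number of edges of a weakly `F`-saturated graph on
`n` vertices. -/
noncomputable def wsat {W : Type} (n : ℕ) (F : SimpleGraph W) : ℕ :=
  sInf {m | ∃ G : SimpleGraph (Fin n), WeaklySaturated F G ∧ G.edgeSet.ncard = m}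

end Pool.Agent.MP_2640cc_co
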