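import Mathlib.LinearAlgebra.FreeModule.StrongRankCondition
import Mathlib.RingTheory.MvPolynomial.Basic
import Mathlib.LinearAlgebra.Matrix.NonsingularInverse
import Mathlib.Algebra.CharP.Algebra
import Mathlib.Data.Int.Star
import Mathlib.Algebra.Order.Ring.Star
import Mathlib.Analysis.Normed.Field.Lemmas
import Mathlib.Combinatorics.Hall.Basic
import Mathlib.Combinatorics.SimpleGraph.DegreeSum
import Mathlib.RingTheory.SimpleRing.Principal
import Mathlib.Order.CompletePartialOrder
import Mathlib.Tactic.Algebra.Basic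
import Pool.Agent.MP_2640cc_co.Defs

-- ======== part 0: formerly Pool.Agent.MP_2640cc_co.Gen
section MrgPart0

/-!
Generic matrices with a prescribed support, a Hall-type interpolation lemma, triangular families
and a greedy selection.
-/

namespace Pool.Agent.MP_2640cc_co

open Finset

/-- The field of rational functions in the entries. -/
abbrev KK (R V : Type) := FractionRing (MvPolynomial (R × V) ℚ)

open Classical in
/-- The generic matrix with support `supp`. -/
noncomputable def gen {R V : Type} (supp : R → V → Prop) (r : R) (v : V) : KK R V :=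
  if supp r v then algebraMap (MvPolynomial (R × V) ℚ) (KK R V) (MvPolynomial.X (r, v)) else 0

lemma gen_eq_zero {R V : Type} {supp : R → V → Prop} {r : R} {v : V} (h : ¬ supp r v) :
    gen supp r v = 0 := by
  simp [gen, h]

lemma gen_ne_zero {R V : Type} {supp : R → V → Prop} {r : R} {v : V} (h : supp r v) :
    gen supp r v ≠ 0 := by
  simp only [gen, h, if_true]
  intro h0
  exact MvPolynomial.X_ne_zero _
    ((IsFractionRing.injective (MvPolynomial (R × V) ℚ) (KK R V)) (by rw [h0, map_zero]))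

lemma gen_det_ne_zero {R V ι : Type} [Fintype ι] [DecidableEq ι] (supp : R → V → Prop)
    (σ : ι → R) (τ : ι → V) (hσ : Function.Injective σ) (hτ : Function.Injective τ)
    (h : ∀ x, supp (σ x) (τ x)) :
    (Matrix.of fun x y => gen supp (σ x) (τ y)).det ≠ 0 := by
  classical
  let M : Matrix ι ι (MvPolynomial (R × V) ℚ) :=
    Matrix.of fun x y => if supp (σ x) (τ y) then MvPolynomial.X (σ x, τ y) else 0
  have hM : (Matrix.of fun x y => gen supp (σ x) (τ y)) =
      (algebraMap (MvPolynomial (R × V) ℚ) (KK R V)).mapMatrix M := by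
    ext x y
    simp only [Matrix.of_apply, RingHom.mapMatrix_apply, Matrix.map_apply, M, gen]
    split_ifs <;> simp
  rw [hM, ← RingHom.map_det]
  intro h0
  have h1 : M.det = 0 :=
    (IsFractionRing.injective (MvPolynomial (R × V) ℚ) (KK R V)) (by rw [h0, map_zero])
  let ev : MvPolynomial (R × V) ℚ →+* ℚ :=
    MvPolynomial.eval (fun z : R × V => if ∃ x, σ x = z.1 ∧ τ x = z.2 then 1 else 0)
  have h2 : ev.mapMatrix M = 1 := by
    ext x y
    simp only [RingHom.mapMatrix_apply, Matrix.map_apply, M, Matrix.of_apply, Matrix.one_apply]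
    by_cases hxy : x = y
    · subst hxy
      simp only [h x, if_true, ev, MvPolynomial.eval_X]
      rw [if_pos ⟨x, rfl, rfl⟩]
    · rw [if_neg hxy]
      split_ifs with hs
      · simp only [ev, MvPolynomial.eval_X]
        rw [if_neg]
        rintro ⟨z, hz1, hz2⟩
        exact hxy ((hσ hz1).symm.trans (hτ hz2))
      · simp
  have h3 : ev M.det = 1 := by rw [RingHom.map_det, h2, Matrix.det_one]
  rw [h1, map_zero] at h3
  exact zero_ne_one h3

/-- Interpolation: under Hall's condition, the rows in `J` interpolate any values on `Z`. -/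
lemma gen_interp {R V : Type} (supp : R → V → Prop) (J : Finset R) (Z : Finset V)
    (hZ : Z.card ≤ J.card)
    (hH : ∀ Z' ⊆ Z, Z'.Nonempty → ∀ J' ⊆ J, J'.Nonempty → (∀ r ∈ J', ∀ p ∈ Z', ¬ supp r p) →
      J'.card + Z'.card ≤ J.card) (y : V → KK R V) :
    ∃ g ∈ Submodule.span (KK R V) (gen supp '' (J : Set R)), ∀ q ∈ Z, g q = y q := by
  classical
  let t : Z → Finset R := fun p => J.filter (fun r => supp r p)
  have hall : ∀ s : Finset Z, s.card ≤ (s.biUnion t).card := by
    intro s
    rcases s.eq_empty_or_nonempty with rfl | hs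
    · simp
    have hsub : s.biUnion t ⊆ J := by
      intro r hr
      simp only [mem_biUnion, t, mem_filter] at hr
      obtain ⟨_, _, h, _⟩ := hr
      exact h
    have hcard : (J \ s.biUnion t).card + (s.biUnion t).card = J.card :=
      card_sdiff_add_card_eq_card hsub
    have hsZ : s.map (Function.Embedding.subtype _) ⊆ Z := by
      intro p hp
      simp only [mem_map, Function.Embedding.subtype_apply] at hp
      obtain ⟨x, _, rfl⟩ := hp
      exact x.2
    rcases (J \ s.biUnion t).eq_empty_or_nonempty with he | hne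
    · rw [he, card_empty] at hcard
      have := card_le_card hsZ
      rw [card_map] at this
      omega
    · have := hH _ hsZ (by simpa using hs) _ sdiff_subset hne (by
        intro r hr p hp hsupp
        simp only [mem_map, Function.Embedding.subtype_apply] at hp
        obtain ⟨x, hx, rfl⟩ := hp
        rw [mem_sdiff] at hr
        exact hr.2 (mem_biUnion.2 ⟨x, hx, mem_filter.2 ⟨hr.1, hsupp⟩⟩))
      rw [card_map] at this
      omega
  obtain ⟨f, hf, hft⟩ := (all_card_le_biUnion_card_iff_exists_injective t).1 hall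
  have hdet := gen_det_ne_zero supp f (fun p : Z => (p : V)) hf Subtype.val_injective
    (fun x => (mem_filter.1 (hft x)).2)
  have hsurj := Matrix.vecMul_surjective_iff_isUnit.2
    ((Matrix.isUnit_iff_isUnit_det _).2 (isUnit_iff_ne_zero.2 hdet))
  obtain ⟨c, hc⟩ := hsurj (fun p : Z => y p)
  refine ⟨∑ x : Z, c x • gen supp (f x), ?_, ?_⟩
  · refine Submodule.sum_mem _ fun x _ => Submodule.smul_mem _ _ (Submodule.subset_span ?_)
    exact ⟨f x, (mem_filter.1 (hft x)).1, rfl⟩
  · intro q hq
    have := congrFun hc ⟨q, hq⟩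
    simpa [Matrix.vecMul, dotProduct, Finset.sum_apply] using this

/-- A triangular family is linearly independent. -/
lemma linearIndependent_of_triangular {K M ι : Type} [Field K] [AddCommGroup M] [Module K M]
    [Fintype ι] (rank : ι → ℕ) (f : ι → M) (φ : ι → M →ₗ[K] K) (h1 : ∀ i, φ i (f i) ≠ 0)
    (h2 : ∀ i l, l ≠ i → rank i ≤ rank l → φ l (f i) = 0) : LinearIndependent K f := by
  classical
  rw [Fintype.linearIndependent_iff]
  intro c hc
  by_contra hne
  push Not at hne
  have hs : (univ.filter fun i => c i ≠ 0).Nonempty := by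
    obtain ⟨i, hi⟩ := hne
    exact ⟨i, by simpa using hi⟩
  obtain ⟨i, hi, hmax⟩ := exists_max_image _ rank hs
  have h0 := congrArg (φ i) hc
  rw [map_sum, map_zero, sum_eq_single i] at h0
  · rw [map_smul, smul_eq_mul] at h0
    rcases mul_eq_zero.1 h0 with h | h
    · exact (mem_filter.1 hi).2 h
    · exact h1 i h
  · intro j _ hj
    by_cases hcj : c j = 0
    · simp [hcj]
    · rw [map_smul, h2 j i (Ne.symm hj) (hmax j (by simpa using hcj)), smul_zero]
  · simp

/-- Greedy selection of indices keeping an invariant. -/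
lemma greedy (Good : Finset ℕ → Prop) (h0 : Good ∅) (t : ℕ) :
    ∃ I : Finset ℕ, (∀ i ∈ I, i < t) ∧ Good I ∧
      ∀ i < t, i ∉ I → ¬ Good (insert i (I.filter (· < i))) := by
  induction t with
  | zero => exact ⟨∅, by simp, h0, by simp⟩
  | succ t ih =>
    obtain ⟨I, hlt, hG, hI⟩ := ih
    by_cases hg : Good (insert t I)
    · refine ⟨insert t I, ?_, hg, ?_⟩
      · intro i hi
        rcases mem_insert.1 hi with rfl | hi
        · omega
        · have := hlt i hi; omega
      · intro i hi hiI
        rw [mem_insert, not_or] at hiI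
        have hit : i < t := by omega
        rw [filter_insert, if_neg (by omega)]
        exact hI i hit hiI.2
    · refine ⟨I, fun i hi => by have := hlt i hi; omega, hG, ?_⟩
      intro i hi hiI
      by_cases hit : i = t
      · subst hit
        rwa [filter_true_of_mem hlt]
      · exact hI i (by omega) hiI

end Pool.Agent.MP_2640cc_co

end MrgPart0

-- ======== part 1: formerly Pool.Agent.MP_2640cc_co.Code
section MrgPart1

/-!
Chains of copies of `K_{a+1,a+1}` and the generic code attached to a set `I` of steps.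
-/

namespace Pool.Agent.MP_2640cc_co

open Finset

/-- The symmetric product of two functions on the vertices. -/
def sprod {K V : Type} [Field K] : (V → K) →ₗ[K] (V → K) →ₗ[K] (V → V → K) :=
  LinearMap.mk₂ K (fun g h p q => g p * h q + g q * h p)
    (fun g g' h => by funext p q; simp only [Pi.add_apply]; ring)
    (fun c g h => by funext p q; simp only [Pi.smul_apply, smul_eq_mul]; ring)
    (fun g h h' => by funext p q; simp only [Pi.add_apply]; ring)
    (fun c g h => by funext p q; simp only [Pi.smul_apply, smul_eq_mul]; ring)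

lemma sprod_apply {K V : Type} [Field K] (g h : V → K) (p q : V) :
    sprod g h p q = g p * h q + g q * h p := rfl

lemma sprod_comm {K V : Type} [Field K] (g h : V → K) : sprod g h = sprod h g := by
  funext p q
  simp only [sprod_apply]
  ring

/-- A chain of `m` steps: step `i` has two disjoint sides `W i true`, `W i false` of size `a + 1`
and an edge `w i true, w i false` across them, and no later edge goes across them. -/
structure Chain (V : Type) (a m : ℕ) where
  W : ℕ → Bool → Finset V
  w : ℕ → Bool → V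
  card : ∀ i < m, ∀ b, (W i b).card = a + 1
  disj : ∀ i < m, ∀ b p, p ∈ W i b → p ∉ W i (!b)
  mem : ∀ i < m, ∀ b, w i b ∈ W i b
  later : ∀ i l, i < l → l < m → ∀ b, w l true ∈ W i b → w l false ∉ W i (!b)

namespace Chain

variable {V : Type} [Fintype V] [DecidableEq V] {a m : ℕ} (C : Chain V a m)

/-- The vertices outside all steps of `J`. -/
def comm (J : Finset ℕ) : Finset V := univ.filter (fun p => ∀ k ∈ J, ∀ b, p ∉ C.W k b)

/-- The union of a set of sides. -/
def uni (Ω : Finset (ℕ × Bool)) : Finset V := Ω.biUnion (fun x => C.W x.1 x.2)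

/-- First invariant. -/
def P1 (j : ℕ) (I : Finset ℕ) : Prop :=
  ∀ J ⊆ I, J.Nonempty → (C.comm J).card + J.card ≤ j + 2

/-- Second invariant. -/
def P2 (I : Finset ℕ) : Prop :=
  ∀ Ω : Finset (ℕ × Bool), (∀ x ∈ Ω, x.1 ∈ I) → Ω.Nonempty → a + Ω.card ≤ (C.uni Ω).card

lemma mem_comm {J : Finset ℕ} {p : V} : p ∈ C.comm J ↔ ∀ k ∈ J, ∀ b, p ∉ C.W k b := by
  simp [comm]

omit [Fintype V] in
lemma mem_uni {Ω : Finset (ℕ × Bool)} {p : V} : p ∈ C.uni Ω ↔ ∃ x ∈ Ω, p ∈ C.W x.1 x.2 := by
  simp only [uni, mem_biUnion]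

lemma P1.card_le {C : Chain V a m} {j : ℕ} {I : Finset ℕ} (h : C.P1 j I) : I.card ≤ j + 2 := by
  rcases I.eq_empty_or_nonempty with rfl | hI
  · simp
  · have := h I Subset.rfl hI
    omega

lemma card_comm_singleton {j : ℕ} (hn : Fintype.card V = 2 * a + j + 2) {i : ℕ} (hi : i < m) :
    (C.comm {i}).card = j := by
  have h1 : C.comm {i} = univ \ (C.W i true ∪ C.W i false) := by
    ext p
    simp [mem_comm, and_comm]
  have h2 : Disjoint (C.W i true) (C.W i false) :=
    disjoint_left.2 fun p hp => C.disj i hi true p hp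
  rw [h1, card_sdiff_of_subset (subset_univ _), card_union_of_disjoint h2, C.card i hi,
    C.card i hi, card_univ, hn]
  omega

/-- A set of sides of steps in `I` is at most `|I|` plus the number of steps with both sides. -/
lemma card_le_both (I : Finset ℕ) (Ω : Finset (ℕ × Bool)) (hΩ : ∀ x ∈ Ω, x.1 ∈ I) :
    Ω.card ≤ I.card + (I.filter fun k => ∀ b, (k, b) ∈ Ω).card := by
  let T := I.filter fun k => (k, true) ∈ Ω
  let F := I.filter fun k => (k, false) ∈ Ω
  have h1 : Ω ⊆ T.image (fun k => (k, true)) ∪ F.image (fun k => (k, false)) := by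
    rintro ⟨k, b⟩ hx
    have := hΩ _ hx
    cases b <;> simp [T, F, hx] <;> exact this
  have h2 := (card_le_card h1).trans (card_union_le _ _)
  have h3 : (T.image fun k => (k, true)).card ≤ T.card := card_image_le
  have h4 : (F.image fun k => (k, false)).card ≤ F.card := card_image_le
  have h5 := card_union_add_card_inter T F
  have h6 : (T ∪ F).card ≤ I.card :=
    card_le_card (union_subset (filter_subset _ _) (filter_subset _ _))
  have h7 : T ∩ F = I.filter fun k => ∀ b, (k, b) ∈ Ω := by
    ext k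
    simp only [T, F, mem_inter, mem_filter, Bool.forall_bool]
    tauto
  rw [h7] at h5
  omega

lemma P1.both {C : Chain V a m} {j : ℕ} {I : Finset ℕ} (h : C.P1 j I)
    (hn : Fintype.card V = 2 * a + j + 2) (hja : j + 2 ≤ a) (Ω : Finset (ℕ × Bool))
    (hΩ : ∀ x ∈ Ω, x.1 ∈ I) {k : ℕ} (hk : ∀ b, (k, b) ∈ Ω) : a + Ω.card ≤ (C.uni Ω).card := by
  have h1 := card_le_both I Ω hΩ
  have h2 := h (I.filter fun k => ∀ b, (k, b) ∈ Ω) (filter_subset _ _)
    ⟨k, mem_filter.2 ⟨hΩ _ (hk true), hk⟩⟩
  have h3 : univ \ C.uni Ω ⊆ C.comm (I.filter fun k => ∀ b, (k, b) ∈ Ω) := by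
    intro p hp
    rw [mem_sdiff, mem_uni] at hp
    rw [mem_comm]
    intro k hk b hpk
    exact hp.2 ⟨(k, b), (mem_filter.1 hk).2 b, hpk⟩
  have h4 := card_le_card h3
  rw [card_sdiff_of_subset (subset_univ _), card_univ, hn] at h4
  have h5 := h.card_le
  omega

/-- Rows: the sides of the steps, and extra full rows. -/
abbrev Row := (ℕ × Bool) ⊕ ℕ

/-- The support of the rows. -/
def supp : Row → V → Prop := Sum.elim (fun x p => p ∈ C.W x.1 x.2) (fun _ _ => True)

/-- The generic rows. -/
noncomputable def X : Row → V → KK Row V := gen C.supp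

/-- The rows of the sides of steps in `I`, completed by full rows to `t` rows. -/
def rows (I : Finset ℕ) (t : ℕ) : Finset Row := (I ×ˢ univ).disjSum (range (t - 2 * I.card))

lemma card_rows (I : Finset ℕ) (t : ℕ) (h : 2 * I.card ≤ t) : (rows I t).card = t := by
  simp only [rows, card_disjSum, card_product, card_univ, Fintype.card_bool, card_range]
  omega

lemma rows_mono (I : Finset ℕ) {t t' : ℕ} (h : t ≤ t') : rows I t ⊆ rows I t' :=
  disjSum_mono Subset.rfl (range_subset_range.2 (by omega))

lemma inl_mem_rows {I : Finset ℕ} {t : ℕ} {x : ℕ × Bool} : Sum.inl x ∈ rows I t ↔ x.1 ∈ I := by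
  simp [rows]

/-- The span of a set of rows. -/
noncomputable def sp (J : Finset Row) : Submodule (KK Row V) (V → KK Row V) :=
  Submodule.span _ (C.X '' (J : Set Row))

omit [Fintype V] [DecidableEq V] in
lemma X_mem_sp {J : Finset Row} {r : Row} (hr : r ∈ J) : C.X r ∈ C.sp J :=
  Submodule.subset_span ⟨r, hr, rfl⟩

omit [Fintype V] [DecidableEq V] in
lemma sp_mono {J J' : Finset Row} (h : J ⊆ J') : C.sp J ≤ C.sp J' :=
  Submodule.span_mono (Set.image_mono (coe_subset.2 h))

omit [Fintype V] [DecidableEq V] in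
lemma X_ne {x : ℕ × Bool} {p : V} (h : p ∈ C.W x.1 x.2) : C.X (Sum.inl x) p ≠ 0 :=
  gen_ne_zero h

omit [Fintype V] [DecidableEq V] in
lemma X_eq {x : ℕ × Bool} {p : V} (h : p ∉ C.W x.1 x.2) : C.X (Sum.inl x) p = 0 :=
  gen_eq_zero h

omit [Fintype V] [DecidableEq V] in
lemma X_inr_ne (r : ℕ) (p : V) : C.X (Sum.inr r) p ≠ 0 :=
  gen_ne_zero trivial

omit [Fintype V] in
/-- Combinations of side rows vanish outside the union of the sides. -/
lemma sp_vanish {Ω : Finset (ℕ × Bool)} {g : V → KK Row V}
    (hg : g ∈ C.sp (Ω.map Function.Embedding.inl)) {p : V} (hp : p ∉ C.uni Ω) : g p = 0 := by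
  induction hg using Submodule.span_induction with
  | mem g hg =>
    obtain ⟨r, hr, rfl⟩ := hg
    obtain ⟨x, hx, rfl⟩ := mem_map.1 hr
    exact C.X_eq fun h => hp (C.mem_uni.2 ⟨x, hx, h⟩)
  | zero => rfl
  | add g h _ _ hg hh => simp [hg, hh]
  | smul c g _ hg => simp [hg]

omit [Fintype V] in
/-- Interpolation by side rows. -/
lemma interp_sides (Ω : Finset (ℕ × Bool)) (Z : Finset V) (hZ : Z.card ≤ Ω.card)
    (hH : ∀ Z' ⊆ Z, ∀ Ω' ⊆ Ω, Ω'.Nonempty → Disjoint (C.uni Ω') Z' → Ω'.card + Z'.card ≤ Ω.card)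
    (y : V → KK Row V) : ∃ g ∈ C.sp (Ω.map Function.Embedding.inl), ∀ q ∈ Z, g q = y q := by
  refine gen_interp C.supp _ Z (by simpa using hZ) ?_ y
  intro Z' hZ' _ J' hJ' hne hav
  obtain ⟨Ω', hΩ', rfl⟩ := subset_map_iff.1 hJ'
  rw [card_map, card_map]
  refine hH Z' hZ' Ω' hΩ' (by simpa using hne) (disjoint_left.2 fun p hp hpZ => ?_)
  obtain ⟨x, hx, hpx⟩ := C.mem_uni.1 hp
  exact hav _ (mem_map_of_mem _ hx) p hpZ hpx

/-- The code interpolates on every set of `a + j + 2` vertices. -/
lemma mds {j : ℕ} {I : Finset ℕ} (h1 : C.P1 j I) (h2 : C.P2 I)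
    (hn : Fintype.card V = 2 * a + j + 2) (hja : j + 2 ≤ a) (T : Finset V)
    (hT : T.card ≤ a + j + 2) (y : V → KK Row V) :
    ∃ g ∈ C.sp (rows I (a + j + 2)), ∀ q ∈ T, g q = y q := by
  have hI := h1.card_le
  have hc : (rows I (a + j + 2)).card = a + j + 2 := card_rows _ _ (by omega)
  refine gen_interp C.supp _ T (by omega) ?_ y
  intro Z' _ hZne J' hJ' hne hav
  obtain ⟨p0, hp0⟩ := hZne
  have hsub : J' ⊆ (I ×ˢ (univ : Finset Bool)).map Function.Embedding.inl := by
    intro r hr
    rcases r with x | r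
    · exact mem_map_of_mem _ (by simpa using inl_mem_rows.1 (hJ' hr))
    · exact absurd trivial (hav _ hr p0 hp0)
  obtain ⟨Ω', hΩ', rfl⟩ := subset_map_iff.1 hsub
  have h3 := h2 Ω' (fun x hx => (mem_product.1 (hΩ' hx)).1) (by simpa using hne)
  have h4 : Disjoint (C.uni Ω') Z' := disjoint_left.2 fun p hp hpZ => by
    obtain ⟨x, hx, hpx⟩ := C.mem_uni.1 hp
    exact hav _ (mem_map_of_mem _ hx) p hpZ hpx
  have h5 := card_le_univ (C.uni Ω' ∪ Z')
  rw [card_union_of_disjoint h4, hn] at h5
  rw [card_map, hc]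
  omega

/-- Functions vanishing on the diagonal and on the edges of the steps from `i` on. -/
def N (i : ℕ) : Submodule (KK Row V) (V → V → KK Row V) where
  carrier := {F | (∀ p, F p p = 0) ∧ ∀ l, i ≤ l → l < m → F (C.w l true) (C.w l false) = 0}
  add_mem' := by
    rintro F G ⟨hF, hF'⟩ ⟨hG, hG'⟩
    exact ⟨fun p => by simp [hF p, hG p], fun l hl hm => by simp [hF' l hl hm, hG' l hl hm]⟩
  zero_mem' := ⟨fun _ => rfl, fun _ _ _ => rfl⟩
  smul_mem' := by
    rintro c F ⟨hF, hF'⟩
    exact ⟨fun p => by simp [hF p], fun l hl hm => by simp [hF' l hl hm]⟩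

omit [Fintype V] [DecidableEq V] in
lemma N_mono {i i' : ℕ} (h : i ≤ i') : C.N i ≤ C.N i' :=
  fun _ hF => ⟨hF.1, fun l hl hm => hF.2 l (h.trans hl) hm⟩

omit [Fintype V] [DecidableEq V] in
/-- A function supported across step `k` vanishes on the diagonal and on later edges. -/
lemma mem_N_of_supp {k i : ℕ} (hk : k < m) (hki : k < i) {F : V → V → KK Row V}
    (hF : ∀ p q, F p q ≠ 0 → ∃ b, p ∈ C.W k b ∧ q ∈ C.W k (!b)) : F ∈ C.N i := by
  constructor
  · intro p
    by_contra h
    obtain ⟨b, h1, h2⟩ := hF p p h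
    exact C.disj k hk b p h1 h2
  · intro l hl hm
    by_contra h
    obtain ⟨b, h1, h2⟩ := hF _ _ h
    exact C.later k l (by omega) hm b h1 h2

omit [Fintype V] [DecidableEq V] in
lemma sprod_mem_N {k i : ℕ} (hk : k < m) (hki : k < i) {b : Bool} {g h : V → KK Row V}
    (hg : ∀ p, p ∉ C.W k b → g p = 0) (hh : ∀ p, p ∉ C.W k (!b) → h p = 0) :
    sprod g h ∈ C.N i := by
  refine C.mem_N_of_supp hk hki fun p q hpq => ?_
  rw [sprod_apply] at hpq
  by_cases h1 : p ∈ C.W k b ∧ q ∈ C.W k (!b)
  · exact ⟨b, h1⟩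
  by_cases h2 : p ∈ C.W k (!b) ∧ q ∈ C.W k b
  · exact ⟨!b, h2.1, by simpa using h2.2⟩
  exfalso
  apply hpq
  have e1 : g p * h q = 0 := by
    rcases not_and_or.1 h1 with h | h
    · rw [hg p h, zero_mul]
    · rw [hh q h, mul_zero]
  have e2 : g q * h p = 0 := by
    rcases not_and_or.1 h2 with h | h
    · rw [hh p h, mul_zero]
    · rw [hg q h, zero_mul]
  rw [e1, e2, add_zero]

end Chain

end Pool.Agent.MP_2640cc_co

end MrgPart1

-- ======== part 2: formerly Pool.Agent.MP_2640cc_co.Steps
section MrgPart2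

/-!
Every step of a chain has a witness in the product space.
-/

namespace Pool.Agent.MP_2640cc_co

open Finset

namespace Chain

variable {V : Type} [Fintype V] [DecidableEq V] {a m : ℕ} (C : Chain V a m)

/-- The product space. -/
noncomputable def PP (j : ℕ) (I : Finset ℕ) : Submodule (KK Row V) (V → V → KK Row V) :=
  Submodule.map₂ sprod (C.sp (rows I (2 * j + 4))) (C.sp (rows I (a + j + 2)))

lemma sides_subset {I : Finset ℕ} {Ω : Finset (ℕ × Bool)} (hΩ : ∀ x ∈ Ω, x.1 ∈ I) (t : ℕ) :
    Ω.map Function.Embedding.inl ⊆ rows I t := by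
  intro r hr
  obtain ⟨x, hx, rfl⟩ := mem_map.1 hr
  exact inl_mem_rows.2 (hΩ x hx)

/-- The standing assumptions. -/
structure Good (j : ℕ) (I : Finset ℕ) : Prop where
  p1 : C.P1 j I
  p2 : C.P2 I
  hn : Fintype.card V = 2 * a + j + 2
  hja : j + 2 ≤ a
  lt : ∀ k ∈ I, k < m

variable {C}

lemma Good.mds {j : ℕ} {I : Finset ℕ} (G : C.Good j I) (T : Finset V)
    (hT : T.card ≤ a + j + 2) (y : V → KK Row V) :
    ∃ g ∈ C.sp (rows I (a + j + 2)), ∀ q ∈ T, g q = y q :=
  C.mds G.p1 G.p2 G.hn G.hja T hT y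

/-- Products of earlier side rows with arbitrary functions lie in the product space modulo `N`. -/
lemma Good.reduce {j : ℕ} {I : Finset ℕ} (G : C.Good j I) {i : ℕ} {Ω : Finset (ℕ × Bool)}
    (hΩ : ∀ x ∈ Ω, x.1 ∈ I ∧ x.1 < i) {f : V → KK Row V}
    (hf : f ∈ C.sp (Ω.map Function.Embedding.inl)) (g : V → KK Row V) :
    sprod f g ∈ C.PP j I ⊔ C.N i := by
  induction hf using Submodule.span_induction with
  | mem f hf =>
    obtain ⟨r, hr, rfl⟩ := hf
    obtain ⟨x, hx, rfl⟩ := mem_map.1 hr
    have hk := G.lt _ (hΩ x hx).1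
    obtain ⟨Y, hY, hYc⟩ := exists_subset_card_eq (s := C.W x.1 (!x.2)) (n := a)
      (by rw [C.card _ hk]; omega)
    obtain ⟨g', hg', hgg⟩ := G.mds (univ \ Y)
      (by rw [card_sdiff_of_subset (subset_univ _), card_univ, G.hn]; omega) g
    have e : g = g' + (g - g') := by abel
    rw [e, map_add]
    refine Submodule.add_mem_sup ?_ ?_
    · exact Submodule.apply_mem_map₂ _ (C.X_mem_sp (inl_mem_rows.2 (hΩ x hx).1)) hg'
    · refine C.sprod_mem_N hk (hΩ x hx).2 (b := x.2) (fun p hp => C.X_eq hp) fun p hp => ?_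
      rw [Pi.sub_apply, hgg p (mem_sdiff.2 ⟨mem_univ _, fun h => hp (hY h)⟩), sub_self]
  | zero => simp
  | add f f' _ _ hf hf' =>
    rw [map_add, LinearMap.add_apply]
    exact add_mem hf hf'
  | smul c f _ hf =>
    rw [map_smul, LinearMap.smul_apply]
    exact Submodule.smul_mem _ _ hf

variable (C) in
/-- A witness for step `i`. -/
def Wit (j : ℕ) (I : Finset ℕ) (i : ℕ) : Prop :=
  ∃ F ∈ C.PP j I, F ∈ C.N (i + 1) ∧ F (C.w i true) (C.w i false) ≠ 0

lemma Good.wit_of_side {j : ℕ} {I : Finset ℕ} (G : C.Good j I) {i : ℕ} (hi : i < m) {b : Bool}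
    {g : V → KK Row V} (hg : g ∈ C.sp (rows I (2 * j + 4))) (hg0 : ∀ p, p ∉ C.W i b → g p = 0)
    (hg1 : g (C.w i b) ≠ 0) : C.Wit j I i := by
  obtain ⟨h, hh, hhy⟩ := G.mds (insert (C.w i (!b)) (univ \ C.W i (!b)))
    ((card_insert_le _ _).trans (by
      rw [card_sdiff_of_subset (subset_univ _), card_univ, G.hn, C.card i hi]; omega))
    (Pi.single (C.w i (!b)) 1)
  have hh0 : ∀ p, p ∉ C.W i (!b) → h p = 0 := by
    intro p hp
    rw [hhy p (mem_insert_of_mem (mem_sdiff.2 ⟨mem_univ _, hp⟩)), Pi.single_eq_of_ne]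
    rintro rfl
    exact hp (C.mem i hi _)
  have hh1 : h (C.w i (!b)) = 1 := by rw [hhy _ (mem_insert_self _ _), Pi.single_eq_same]
  refine ⟨sprod g h, Submodule.apply_mem_map₂ _ hg hh,
    C.sprod_mem_N hi (Nat.lt_succ_self i) hg0 hh0, ?_⟩
  have h0 : g (C.w i (!b)) = 0 := hg0 _ fun hp => C.disj i hi b _ hp (C.mem i hi _)
  rw [sprod_apply]
  cases b
  · simp only [Bool.not_false] at hh1 h0
    simpa [hh1, h0] using hg1
  · simp only [Bool.not_true] at hh1 h0
    simpa [hh1, h0] using hg1

/-- Chosen steps. -/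
lemma Good.wit_mem {j : ℕ} {I : Finset ℕ} (G : C.Good j I) {i : ℕ} (hi : i ∈ I) : C.Wit j I i :=
  G.wit_of_side (G.lt i hi) (b := true) (C.X_mem_sp (r := Sum.inl (i, true)) (inl_mem_rows.2 hi))
    (fun _ hp => C.X_eq hp) (C.X_ne (C.mem i (G.lt i hi) true))

/-- Steps that break the second invariant. -/
lemma Good.wit_P2 {j : ℕ} {I : Finset ℕ} (G : C.Good j I) {i : ℕ} (hi : i < m) {I0 : Finset ℕ}
    (hI0 : I0 ⊆ I) (h1 : C.P1 j (insert i I0)) (h2 : ¬ C.P2 (insert i I0)) : C.Wit j I i := by
  unfold P2 at h2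
  push Not at h2
  obtain ⟨Ω, hΩ, hne, hlt⟩ := h2
  have hb : ∃ b, (i, b) ∈ Ω := by
    by_contra hb
    push Not at hb
    refine absurd (G.p2 Ω (fun x hx => ?_) hne) (by omega)
    rcases mem_insert.1 (hΩ x hx) with h | h
    · exact absurd hx (by rw [← h] at hb; exact hb x.2)
    · exact hI0 h
  obtain ⟨b, hb⟩ := hb
  have hnb : (i, !b) ∉ Ω := by
    intro hb'
    refine absurd (h1.both G.hn G.hja Ω hΩ (k := i) fun b' => ?_) (by omega)
    cases b <;> cases b' <;> assumption
  have hΩ' : ∀ x ∈ Ω.erase (i, b), x.1 ∈ I := by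
    rintro ⟨k, b'⟩ hx
    rw [mem_erase] at hx
    rcases mem_insert.1 (hΩ _ hx.2) with h | h
    · exfalso
      simp only at h
      subst h
      cases b <;> cases b' <;> simp_all
    · exact hI0 h
  have hc : (Ω.erase (i, b)).card + 1 = Ω.card := card_erase_add_one hb
  have hW : C.W i b ⊆ C.uni Ω := fun p hp => C.mem_uni.2 ⟨_, hb, hp⟩
  have hmono : ∀ Ω' ⊆ Ω, C.uni Ω' ⊆ C.uni Ω := fun Ω' h p hp => by
    obtain ⟨x, hx, hpx⟩ := C.mem_uni.1 hp
    exact C.mem_uni.2 ⟨x, h hx, hpx⟩
  have hZ : insert (C.w i b) (C.uni Ω \ C.W i b) ⊆ C.uni Ω :=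
    insert_subset (hW (C.mem i hi b)) sdiff_subset
  obtain ⟨g, hg, hgy⟩ := C.interp_sides (Ω.erase (i, b)) (insert (C.w i b) (C.uni Ω \ C.W i b))
    ((card_insert_le _ _).trans (by
      have := card_le_card hW
      rw [card_sdiff_of_subset hW, C.card i hi] at *
      omega))
    (by
      intro Z' hZ' Ω' hΩ'' hne' hdis
      have h3 := G.p2 Ω' (fun x hx => hΩ' x (hΩ'' hx)) hne'
      have h4 := card_le_card
        (union_subset (hmono Ω' (hΩ''.trans (erase_subset _ _))) (hZ'.trans hZ))
      rw [card_union_of_disjoint hdis] at h4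
      omega)
    (Pi.single (C.w i b) 1)
  refine G.wit_of_side hi (b := b) (C.sp_mono (sides_subset hΩ' _) hg) (fun p hp => ?_) ?_
  · by_cases hpu : p ∈ C.uni Ω
    · rw [hgy p (mem_insert_of_mem (mem_sdiff.2 ⟨hpu, hp⟩)), Pi.single_eq_of_ne]
      rintro rfl
      exact hp (C.mem i hi _)
    · exact C.sp_vanish hg fun h => hpu (hmono _ (erase_subset _ _) h)
  · rw [hgy _ (mem_insert_self _ _), Pi.single_eq_same]
    exact one_ne_zero

/-- Steps that break the first invariant. -/
lemma Good.wit_P1 {j : ℕ} {I : Finset ℕ} (G : C.Good j I) {i : ℕ} (hi : i < m)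
    (h1 : ¬ C.P1 j (insert i (I.filter (· < i)))) : C.Wit j I i := by
  unfold P1 at h1
  push Not at h1
  obtain ⟨J', hJ', hne, hlt⟩ := h1
  have hJ : ∀ k ∈ J'.erase i, k ∈ I ∧ k < i := by
    intro k hk
    rw [mem_erase] at hk
    exact mem_filter.1 ((mem_insert.1 (hJ' hk.2)).resolve_left hk.1)
  have hiJ : i ∈ J' := by
    by_contra hiJ
    rw [erase_eq_of_notMem hiJ] at hJ
    exact absurd (G.p1 J' (fun k hk => (hJ k hk).1) hne) (by omega)
  have hc : (J'.erase i).card + 1 = J'.card := card_erase_add_one hiJ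
  set J := J'.erase i with hJdef
  set u := C.w i true
  set v := C.w i false
  have hu : u ∈ C.W i true := C.mem i hi true
  have hv : v ∈ C.W i false := C.mem i hi false
  have hvA : v ∉ C.W i true := C.disj i hi false v hv
  have huv : u ≠ v := fun h => hvA (h ▸ hu)
  have hsub : C.comm J' ⊆ C.comm {i} := fun p hp =>
    C.mem_comm.2 fun k hk => by rw [mem_singleton.1 hk]; exact C.mem_comm.1 hp i hiJ
  set Z := insert u (insert v (C.comm {i} \ C.comm J')) with hZdef
  have hZc : Z.card ≤ J.card := by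
    have h2 : Z.card ≤ (C.comm {i} \ C.comm J').card + 1 + 1 :=
      (card_insert_le _ _).trans (Nat.succ_le_succ (card_insert_le _ _))
    have h3 := card_le_card hsub
    rw [card_sdiff_of_subset hsub] at h2
    rw [C.card_comm_singleton G.hn hi] at h2 h3
    omega
  have hZd : Disjoint Z (C.comm J') := disjoint_left.2 fun p hp hp' => by
    rcases mem_insert.1 hp with rfl | hp
    · exact C.mem_comm.1 hp' i hiJ _ hu
    rcases mem_insert.1 hp with rfl | hp
    · exact C.mem_comm.1 hp' i hiJ _ hv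
    · exact (mem_sdiff.1 hp).2 hp'
  have hΩc : (J ×ˢ (univ : Finset Bool)).card = J.card * 2 := by simp
  have hint := C.interp_sides (J ×ˢ univ) Z (by omega) (by
    intro Z' hZ' Ω' hΩ' _ hdis
    have h2 := card_le_both J Ω' fun x hx => (mem_product.1 (hΩ' hx)).1
    have h3 := card_le_card hZ'
    rcases (J.filter fun k => ∀ b, (k, b) ∈ Ω').eq_empty_or_nonempty with he | hne2
    · rw [he, card_empty] at h2
      omega
    · have h4 := G.p1 _ (fun k hk => (hJ k (mem_filter.1 hk).1).1) hne2
      have h5 : Z' ∪ C.comm J' ⊆ C.comm (J.filter fun k => ∀ b, (k, b) ∈ Ω') := by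
        intro p hp
        refine C.mem_comm.2 fun k hk b hpk => ?_
        rcases mem_union.1 hp with hp | hp
        · exact disjoint_left.1 hdis (C.mem_uni.2 ⟨(k, b), (mem_filter.1 hk).2 b, hpk⟩) hp
        · exact C.mem_comm.1 hp k (mem_of_mem_erase (mem_filter.1 hk).1) b hpk
      have h6 := card_le_card h5
      rw [card_union_of_disjoint (hZd.mono_left hZ')] at h6
      omega)
  have hvan : ∀ g ∈ C.sp ((J ×ˢ (univ : Finset Bool)).map Function.Embedding.inl), ∀ z : V,
      z ∉ C.comm {i} → (∀ q ∈ Z, g q = (Pi.single z 1 : V → KK Row V) q) →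
      ∀ p ∈ C.comm {i}, g p = 0 := by
    intro g hg z hz hgy p hp
    by_cases hpJ : p ∈ C.comm J'
    · refine C.sp_vanish hg fun h => ?_
      obtain ⟨x, hx, hpx⟩ := C.mem_uni.1 h
      exact C.mem_comm.1 hpJ _ (mem_of_mem_erase (mem_product.1 hx).1) _ hpx
    · rw [hgy p (mem_insert_of_mem (mem_insert_of_mem (mem_sdiff.2 ⟨hp, hpJ⟩))),
        Pi.single_eq_of_ne]
      rintro rfl
      exact hz hp
  obtain ⟨f1, hf1, hy1⟩ := hint (Pi.single u 1)
  obtain ⟨f2, hf2, hy2⟩ := hint (Pi.single v 1)
  have hz1 := hvan f1 hf1 u (fun h => C.mem_comm.1 h i (mem_singleton_self _) _ hu) hy1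
  have hz2 := hvan f2 hf2 v (fun h => C.mem_comm.1 h i (mem_singleton_self _) _ hv) hy2
  have huZ : u ∈ Z := mem_insert_self _ _
  have hvZ : v ∈ Z := mem_insert_of_mem (mem_insert_self _ _)
  let ind : V → KK Row V := fun p => if p ∈ C.W i true then 1 else 0
  have hΩ : ∀ x ∈ J ×ˢ (univ : Finset Bool), x.1 ∈ I ∧ x.1 < i :=
    fun x hx => hJ _ (mem_product.1 hx).1
  have hf : sprod f1 (f2 * ind) - sprod f2 (f1 * ind) ∈ C.PP j I ⊔ C.N i :=
    sub_mem (G.reduce hΩ hf1 _) (G.reduce hΩ hf2 _)
  have hval : ∀ p q, (sprod f1 (f2 * ind) - sprod f2 (f1 * ind)) p q =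
      (f1 p * f2 q - f1 q * f2 p) * (ind q - ind p) := by
    intro p q
    simp only [Pi.sub_apply, sprod_apply, Pi.mul_apply]
    ring
  have hout : ∀ p, p ∉ C.W i true → p ∉ C.W i false → p ∈ C.comm {i} := fun p h h' =>
    C.mem_comm.2 fun k hk b => by
      rw [mem_singleton.1 hk]
      cases b <;> assumption
  have hN : sprod f1 (f2 * ind) - sprod f2 (f1 * ind) ∈ C.N (i + 1) := by
    refine C.mem_N_of_supp hi (Nat.lt_succ_self i) fun p q hpq => ?_
    rw [hval] at hpq
    have h3 := left_ne_zero_of_mul hpq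
    have h4 := right_ne_zero_of_mul hpq
    by_cases hp : p ∈ C.W i true
    · by_cases hq : q ∈ C.W i true
      · simp [ind, hp, hq] at h4
      · refine ⟨true, hp, ?_⟩
        by_contra hq'
        have := hout q hq hq'
        simp [hz1 q this, hz2 q this] at h3
    · by_cases hq : q ∈ C.W i true
      · refine ⟨false, ?_, hq⟩
        by_contra hp'
        have := hout p hp hp'
        simp [hz1 p this, hz2 p this] at h3
      · simp [ind, hp, hq] at h4
  obtain ⟨F, hF, ν, hν, hFν⟩ := Submodule.mem_sup.1 hf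
  have hFe : F = (sprod f1 (f2 * ind) - sprod f2 (f1 * ind)) - ν := by rw [← hFν]; abel
  refine ⟨F, hF, ?_, ?_⟩
  · rw [hFe]
    exact sub_mem hN (C.N_mono (Nat.le_succ i) hν)
  · have h0 : ν u v = 0 := hν.2 i le_rfl hi
    change F u v ≠ 0
    rw [hFe, Pi.sub_apply, Pi.sub_apply, hval, h0, hy1 u huZ, hy1 v hvZ, hy2 u huZ, hy2 v hvZ]
    simp [ind, hu, hvA, huv, huv.symm]

end Chain

end Pool.Agent.MP_2640cc_co

end MrgPart2

-- ======== part 3: formerly Pool.Agent.MP_2640cc_co.Count
section MrgPart3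

/-!
The dimension count: a chain on `2a + j + 2` vertices has at most `2a(j+1)` steps.
-/

namespace Pool.Agent.MP_2640cc_co

open Finset

namespace Chain

variable {V : Type} [Fintype V] [DecidableEq V] {a m : ℕ} {C : Chain V a m}

lemma Good.diag_wit {j : ℕ} {I : Finset ℕ} (G : C.Good j I) {r : Row}
    (hr : r ∈ rows I (2 * j + 4)) {q : V} (hq : C.X r q ≠ 0) (T : Finset V)
    (hT : T.card ≤ a + j + 2) (hqT : q ∈ T) :
    ∃ F ∈ C.PP j I, F q q ≠ 0 ∧ ∀ p, p ≠ q → (p ∈ T ∨ C.X r p = 0) → F p p = 0 := by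
  obtain ⟨g, hg, hgy⟩ := G.mds T hT (Pi.single q 1)
  refine ⟨sprod (C.X r) g, Submodule.apply_mem_map₂ _ (C.X_mem_sp hr) hg, ?_, ?_⟩
  · rw [sprod_apply, hgy q hqT, Pi.single_eq_same, mul_one, ← two_mul]
    exact mul_ne_zero two_ne_zero hq
  · rintro p hp (h | h)
    · rw [sprod_apply, hgy p h, Pi.single_eq_of_ne hp]
      simp
    · rw [sprod_apply, h]
      simp

lemma Good.diag {j : ℕ} {I : Finset ℕ} (G : C.Good j I) (h0 : 0 ∈ I) (q : V) :
    ∃ F ∈ C.PP j I, F q q ≠ 0 ∧ ∀ p, p ≠ q → (q ∈ C.comm {0} → p ∈ C.comm {0}) → F p p = 0 := by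
  have hm := G.lt 0 h0
  have hja := G.hja
  by_cases hq : q ∈ C.comm {0}
  · have hr : ∃ r ∈ rows I (2 * j + 4), C.X r q ≠ 0 := by
      by_cases hI : I.card ≤ j + 1
      · refine ⟨Sum.inr 0, ?_, C.X_inr_ne 0 q⟩
        simp only [rows, inr_mem_disjSum, mem_range]
        omega
      · have h1 := G.p1 I Subset.rfl ⟨0, h0⟩
        have h2 : q ∉ C.comm I := fun h => by
          have := card_pos.2 ⟨q, h⟩
          omega
        rw [mem_comm] at h2
        push Not at h2
        obtain ⟨k, hk, b, hb⟩ := h2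
        exact ⟨Sum.inl (k, b), inl_mem_rows.2 hk, C.X_ne hb⟩
    obtain ⟨r, hr, hrq⟩ := hr
    obtain ⟨F, hF, h1, h2⟩ := G.diag_wit hr hrq (C.comm {0})
      (by rw [C.card_comm_singleton G.hn hm]; omega) hq
    exact ⟨F, hF, h1, fun p hp hpq => h2 p hp (Or.inl (hpq hq))⟩
  · have hq' := hq
    rw [mem_comm] at hq'
    push Not at hq'
    obtain ⟨k, hk, b, hb⟩ := hq'
    rw [mem_singleton.1 hk] at hb
    obtain ⟨F, hF, h1, h2⟩ := G.diag_wit (r := Sum.inl (0, b)) (inl_mem_rows.2 h0) (C.X_ne hb)
      (C.W 0 b) (by rw [C.card 0 hm]; omega) hb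
    refine ⟨F, hF, h1, fun p hp _ => h2 p hp ?_⟩
    by_cases h : p ∈ C.W 0 b
    · exact Or.inl h
    · exact Or.inr (C.X_eq h)

variable (C) in
lemma exists_good {j : ℕ} (hn : Fintype.card V = 2 * a + j + 2) (hja : j + 2 ≤ a) (hm : 0 < m) :
    ∃ I, C.Good j I ∧ 0 ∈ I ∧ ∀ i < m, C.Wit j I i := by
  obtain ⟨I, hlt, hG, hI⟩ := greedy (fun I => C.P1 j I ∧ C.P2 I)
    ⟨fun J hJ hne => absurd (subset_empty.1 hJ) hne.ne_empty,
      fun Ω hΩ hne => by obtain ⟨x, hx⟩ := hne; simpa using hΩ x hx⟩ m
  have G : C.Good j I := ⟨hG.1, hG.2, hn, hja, hlt⟩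
  refine ⟨I, G, ?_, fun i hi => ?_⟩
  · by_contra h0
    apply hI 0 hm h0
    have he : insert 0 (I.filter (· < 0)) = {0} := by
      rw [filter_false_of_mem (by simp)]
      rfl
    rw [he]
    have h1 : C.P1 j {0} := by
      intro J hJ hne
      rw [hne.subset_singleton_iff.1 hJ, C.card_comm_singleton hn hm, card_singleton]
      omega
    refine ⟨h1, fun Ω hΩ hne => ?_⟩
    by_cases hb : ∀ b, (0, b) ∈ Ω
    · exact h1.both hn hja Ω hΩ hb
    · have h2 := card_le_both {0} Ω hΩ
      rw [filter_false_of_mem (by simpa using hb), card_empty, card_singleton] at h2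
      obtain ⟨x, hx⟩ := hne
      have h3 : C.W x.1 x.2 ⊆ C.uni Ω := fun p hp => C.mem_uni.2 ⟨x, hx, hp⟩
      have h4 := card_le_card h3
      rw [C.card _ (by rw [mem_singleton.1 (hΩ x hx)]; exact hm)] at h4
      omega
  · by_cases hiI : i ∈ I
    · exact G.wit_mem hiI
    · by_cases h1 : C.P1 j (insert i (I.filter (· < i)))
      · exact G.wit_P2 hi (filter_subset _ _) h1 fun h2 => hI i hi hiI ⟨h1, h2⟩
      · exact G.wit_P1 hi h1

/-- The product space has few generators. -/
lemma Good.span_PP {j : ℕ} {I : Finset ℕ} (G : C.Good j I) :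
    ∃ s : Finset (V → V → KK Row V), C.PP j I ≤ Submodule.span _ (s : Set _) ∧
      s.card + (a - (j + 2) + 1).choose 2 ≤ (a + j + 2 + 1).choose 2 := by
  classical
  have hI := G.p1.card_le
  have hja := G.hja
  let π : Sym2 Row → (V → V → KK Row V) :=
    Sym2.lift ⟨fun r r' => sprod (C.X r) (C.X r'), fun _ _ => sprod_comm _ _⟩
  have hsub : rows I (2 * j + 4) ⊆ rows I (a + j + 2) := rows_mono I (by omega)
  refine ⟨((rows I (a + j + 2)).sym2 \ (rows I (a + j + 2) \ rows I (2 * j + 4)).sym2).image π,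
    ?_, ?_⟩
  · unfold PP sp
    rw [Submodule.map₂_span_span]
    refine Submodule.span_mono ?_
    rintro _ ⟨_, ⟨r, hr, rfl⟩, _, ⟨r', hr', rfl⟩, rfl⟩
    refine mem_coe.2 (mem_image.2 ⟨s(r, r'), ?_, rfl⟩)
    rw [mem_sdiff, mk_mem_sym2_iff, mk_mem_sym2_iff]
    exact ⟨⟨hsub hr, hr'⟩, fun h => (mem_sdiff.1 h.1).2 hr⟩
  · refine le_trans (Nat.add_le_add_right card_image_le _) ?_
    have h1 := card_sdiff_add_card_eq_card
      (sym2_mono (sdiff_subset (s := rows I (a + j + 2)) (t := rows I (2 * j + 4))))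
    rw [card_sym2, card_sym2, card_sdiff_of_subset hsub, card_rows _ _ (by omega),
      card_rows _ _ (by omega)] at h1
    rw [← h1, show a + j + 2 - (2 * j + 4) = a - (j + 2) by omega]

/-- A chain on `2a + j + 2` vertices has at most `2a(j+1)` steps. -/
theorem length_le (C : Chain V a m) {j : ℕ} (hn : Fintype.card V = 2 * a + j + 2) (hja : j + 2 ≤ a) :
    m ≤ (j + 1) * (2 * a) := by
  classical
  rcases Nat.eq_zero_or_pos m with rfl | hm
  · omega
  obtain ⟨I, G, h0, hW⟩ := C.exists_good hn hja hm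
  choose F hF hFN hF0 using fun i : Fin m => hW i i.2
  choose H hH hH0 hH1 using G.diag h0
  obtain ⟨s, hs, hsc⟩ := G.span_PP
  let ev : V → V → ((V → V → KK Row V) →ₗ[KK Row V] KK Row V) := fun p q =>
    { toFun := fun F => F p q, map_add' := fun _ _ => rfl, map_smul' := fun _ _ => rfl }
  have hli : LinearIndependent (KK Row V) (Sum.elim F H) := by
    refine linearIndependent_of_triangular
      (Sum.elim (fun i : Fin m => (i : ℕ)) fun q => m + if q ∈ C.comm {0} then 1 else 0) _
      (Sum.elim (fun i : Fin m => ev (C.w i true) (C.w i false)) fun q => ev q q) ?_ ?_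
    · rintro (i | q)
      · exact hF0 i
      · exact hH0 q
    · rintro (i | q) (l | p) hne hle
      · simp only [Sum.elim_inl] at hle
        have : (l : ℕ) ≠ i := fun h => hne (congrArg _ (Fin.ext h))
        exact (hFN i).2 l (by omega) l.2
      · exact (hFN i).1 p
      · simp only [Sum.elim_inl, Sum.elim_inr] at hle
        have := l.2
        omega
      · simp only [Sum.elim_inr] at hle
        refine hH1 q p (fun h => hne (congrArg _ h)) fun hq => ?_
        by_contra hp
        simp [hq, hp] at hle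
  have hle := linearIndependent_le_span_aux' _ hli (s : Set _) (by
    rintro _ ⟨i | q, rfl⟩
    · exact hs (hF i)
    · exact hs (hH q))
  simp only [Fintype.card_sum, Fintype.card_fin, coe_sort_coe, Fintype.card_coe, hn] at hle
  obtain ⟨c, rfl⟩ := Nat.exists_eq_add_of_le hja
  rw [show j + 2 + c - (j + 2) = c by omega] at hsc
  have e1 := Nat.add_one_mul_choose_eq c 1
  have e2 := Nat.add_one_mul_choose_eq (j + 2 + c + j + 2) 1
  simp only [Nat.choose_one_right, Nat.reduceAdd] at e1 e2
  nlinarith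

end Chain

end Pool.Agent.MP_2640cc_co

end MrgPart3

-- ======== part 4: formerly Pool.Agent.MP_2640cc_co.Fill
section MrgPart4

namespace Pool.Agent.MP_2640cc_co

open SimpleGraph

/-- The second condition of weak saturation. -/
def Fillable {V W : Type} (F : SimpleGraph W) (G : SimpleGraph V) : Prop :=
    ∃ l : List (Sym2 V), l.Nodup ∧
      (∀ e, e ∈ l ↔ e ∈ (⊤ : SimpleGraph V).edgeSet ∧ e ∉ G.edgeSet) ∧
      ∀ i : Fin l.length,
        ∃ c : F.Copy (G ⊔ fromEdgeSet {e | e ∈ l.take (i.val + 1)}),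
          ∃ x y : W, F.Adj x y ∧ s(c x, c y) = l.get i

variable {V W : Type} {F : SimpleGraph W}

lemma fillable_top : Fillable F (⊤ : SimpleGraph V) :=
  ⟨[], List.nodup_nil, by simp, fun i => i.elim0⟩

lemma fillable_step {G : SimpleGraph V} {e : Sym2 V} (he : ¬ e.IsDiag) (hG : e ∉ G.edgeSet)
    (c : F.Copy (G ⊔ fromEdgeSet {e})) (x y : W) (hxy : F.Adj x y) (hc : s(c x, c y) = e)
    (h : Fillable F (G ⊔ fromEdgeSet {e})) : Fillable F G := by
  obtain ⟨l, hl, hmem, hcopy⟩ := h
  have hel : e ∉ l := by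
    intro h'
    have := (hmem e).1 h'
    apply this.2
    simp [he]
  refine ⟨e :: l, List.nodup_cons.2 ⟨hel, hl⟩, ?_, ?_⟩
  · intro f
    rw [List.mem_cons, hmem]
    by_cases hfe : f = e
    · subst hfe
      simp [he, hG]
    · simp [hfe]
  · intro i
    rcases i with ⟨i, hi⟩
    cases i with
    | zero =>
      have hle : G ⊔ fromEdgeSet {e} ≤ G ⊔ fromEdgeSet {f | f ∈ (e :: l).take (0 + 1)} := by
        apply sup_le_sup_left
        apply fromEdgeSet_mono
        intro f hf
        simpa using hf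
      exact ⟨(Copy.ofLE _ _ hle).comp c, x, y, hxy, hc⟩
    | succ i =>
      have hi' : i < l.length := by simpa using hi
      obtain ⟨c', x', y', hxy', hc'⟩ := hcopy ⟨i, hi'⟩
      have hle : (G ⊔ fromEdgeSet {e}) ⊔ fromEdgeSet {f | f ∈ l.take (i + 1)} ≤
          G ⊔ fromEdgeSet {f | f ∈ (e :: l).take (i + 1 + 1)} := by
        rw [sup_assoc]
        apply sup_le_sup_left
        rw [← fromEdgeSet_union]
        apply fromEdgeSet_mono
        intro f hf
        simpa using hf
      exact ⟨(Copy.ofLE _ _ hle).comp c', x', y', hxy', hc'⟩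

/-- If every proper supergraph of `G0` admits a step, all supergraphs of `G0` are fillable. -/
lemma fillable_of_progress [Fintype V] (G0 : SimpleGraph V)
    (hprog : ∀ G : SimpleGraph V, G0 ≤ G → G ≠ ⊤ → ∃ e : Sym2 V, ¬ e.IsDiag ∧ e ∉ G.edgeSet ∧
      ∃ c : F.Copy (G ⊔ fromEdgeSet {e}), ∃ x y, F.Adj x y ∧ s(c x, c y) = e) :
    ∀ G : SimpleGraph V, G0 ≤ G → Fillable F G := by
  classical
  intro G
  induction G using WellFoundedGT.induction with
  | ind G ih =>
    intro hG
    by_cases htop : G = ⊤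
    · subst htop; exact fillable_top
    · obtain ⟨e, he, heG, c, x, y, hxy, hc⟩ := hprog G hG htop
      refine fillable_step he heG c x y hxy hc (ih _ ?_ (hG.trans le_sup_left))
      refine lt_of_le_of_ne le_sup_left ?_
      intro h
      apply heG
      rw [h]
      simp [he]

/-- A fillable graph contains a weakly saturated graph. -/
lemma exists_weaklySaturated_le [Fintype V] (hF : ∃ x y, F.Adj x y) (G : SimpleGraph V) :
    Fillable F G → ∃ G' ≤ G, WeaklySaturated F G' := by
  classical
  induction G using WellFoundedLT.induction with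
  | ind G ih =>
    intro hG
    by_cases hfree : F.Free G
    · exact ⟨G, le_rfl, hfree, hG⟩
    · obtain ⟨c⟩ := not_free.1 hfree
      obtain ⟨x, y, hxy⟩ := hF
      have hadj : G.Adj (c x) (c y) := c.toHom.map_adj hxy
      set e : Sym2 V := s(c x, c y) with he
      have hed : ¬ e.IsDiag := by simpa [he] using hadj.ne
      have heq : G.deleteEdges {e} ⊔ fromEdgeSet {e} = G := by
        ext u v
        simp only [sup_adj, deleteEdges_adj, fromEdgeSet_adj, Set.mem_singleton_iff]
        constructor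
        · rintro (h | h)
          · exact h.1
          · rw [← mem_edgeSet, h.1]; exact hadj
        · intro h
          by_cases h' : s(u, v) = e
          · exact Or.inr ⟨h', h.ne⟩
          · exact Or.inl ⟨h, h'⟩
      have hlt : G.deleteEdges {e} < G := by
        refine lt_of_le_of_ne (deleteEdges_le _) ?_
        intro h
        have : (G.deleteEdges {e}).Adj (c x) (c y) := by rw [h]; exact hadj
        simp [he] at this
      have hfill : Fillable F (G.deleteEdges {e}) := by
        refine fillable_step hed (by simp) ((Copy.ofLE _ _ heq.ge).comp c) x y hxy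
          (by simp [he]) ?_
        rw [heq]; exact hG
      obtain ⟨G', hle, hG'⟩ := ih _ hlt hfill
      exact ⟨G', hle.trans hlt.le, hG'⟩

lemma wsat_le_of_fillable {n : ℕ} (hF : ∃ x y, F.Adj x y) (G : SimpleGraph (Fin n))
    (hG : Fillable F G) : wsat n F ≤ G.edgeSet.ncard := by
  obtain ⟨G', hle, hG'⟩ := exists_weaklySaturated_le hF G hG
  have h1 : wsat n F ≤ G'.edgeSet.ncard := Nat.sInf_le ⟨G', hG', rfl⟩
  exact h1.trans (Set.ncard_le_ncard (edgeSet_mono hle) (Set.toFinite _))

lemma le_wsat {n k : ℕ} (hF : ∃ x y, F.Adj x y)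
    (h : ∀ G : SimpleGraph (Fin n), Fillable F G → k ≤ G.edgeSet.ncard) : k ≤ wsat n F := by
  obtain ⟨G', _, hG'⟩ := exists_weaklySaturated_le hF (⊤ : SimpleGraph (Fin n)) fillable_top
  have hne : {m | ∃ G : SimpleGraph (Fin n), WeaklySaturated F G ∧ G.edgeSet.ncard = m}.Nonempty :=
    ⟨_, G', hG', rfl⟩
  obtain ⟨G, hG, hm⟩ := Nat.sInf_mem hne
  unfold wsat
  rw [← hm]
  exact h G hG.2

/-- Induction principle along the filling order. -/
lemma fillable_induct {G : SimpleGraph V} (hG : Fillable F G) (P : V → V → Prop)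
    (hsymm : ∀ u v, P u v → P v u) (h0 : ∀ u v, G.Adj u v → P u v)
    (hstep : ∀ (f : W → V), Function.Injective f → ∀ x y, F.Adj x y →
      (∀ x' y', F.Adj x' y' → s(x', y') ≠ s(x, y) → P (f x') (f y')) → P (f x) (f y)) :
    ∀ u v, u ≠ v → P u v := by
  obtain ⟨l, _, hmem, hcopy⟩ := hG
  have key : ∀ k, ∀ u v, s(u, v) ∈ l.take k → P u v := by
    intro k
    induction k with
    | zero => simp
    | succ k ih =>
      intro u v huv
      by_cases hk : k < l.length
      · rw [List.take_succ_eq_append_getElem hk, List.mem_append] at huv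
        rcases huv with huv | huv
        · exact ih u v huv
        · obtain ⟨c, x, y, hxy, hc⟩ := hcopy ⟨k, hk⟩
          have huv' : s(u, v) = s(c x, c y) := by
            rw [hc]; simpa using huv
          have hP : P (c x) (c y) := by
            refine hstep c c.injective x y hxy ?_
            intro x' y' hxy' hne
            have hadj := c.toHom.map_adj hxy'
            rcases hadj with hadj | hadj
            · exact h0 _ _ hadj
            · rw [fromEdgeSet_adj] at hadj
              have h1' : s(c x', c y') ∈ l.take (k + 1) := hadj.1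
              have htake : ∀ z, z ∈ l.take (k + 1) → z ∈ l.take k ∨ z ∈ [l[k]] := by
                intro z hz
                rwa [List.take_succ_eq_append_getElem hk, List.mem_append] at hz
              have h1 := htake _ h1'
              rcases h1 with h1 | h1
              · exact ih _ _ h1
              · exfalso
                apply hne
                have h2 : s(c x', c y') = s(c x, c y) := by
                  rw [hc]; simpa using h1
                have hinj := c.injective
                rcases Sym2.eq_iff.1 h2 with ⟨h3, h4⟩ | ⟨h3, h4⟩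
                · rw [hinj h3, hinj h4]
                · rw [hinj h3, hinj h4, Sym2.eq_swap]
          rcases Sym2.eq_iff.1 huv' with ⟨h3, h4⟩ | ⟨h3, h4⟩
          · rw [h3, h4]; exact hP
          · rw [h3, h4]; exact hsymm _ _ hP
      · rw [List.take_of_length_le (by omega)] at huv
        apply ih u v
        rw [List.take_of_length_le (by omega)]
        exact huv
  intro u v huv
  by_cases hadj : G.Adj u v
  · exact h0 u v hadj
  · apply key l.length
    rw [List.take_length, hmem]
    exact ⟨by simpa using huv, hadj⟩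

end Pool.Agent.MP_2640cc_co

end MrgPart4

-- ======== part 5: formerly Pool.Agent.MP_2640cc_co.Upper
section MrgPart5

namespace Pool.Agent.MP_2640cc_co

open SimpleGraph Finset

/-- One filling step from two sets of size at least `s`. -/
lemma step_of_sets {V : Type} [DecidableEq V] {s : ℕ} (hs : 1 ≤ s) (G : SimpleGraph V)
    (A B : Finset V) (a b : V) (ha : a ∈ A) (hb : b ∈ B) (hAB : Disjoint A B)
    (hA : s ≤ #A) (hB : s ≤ #B)
    (hadj : ∀ u ∈ A, ∀ v ∈ B, ¬ (u = a ∧ v = b) → G.Adj u v) :
    ∃ c : (completeBipartiteGraph (Fin s) (Fin s)).Copy (G ⊔ fromEdgeSet {s(a, b)}),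
      ∃ x y, (completeBipartiteGraph (Fin s) (Fin s)).Adj x y ∧ s(c x, c y) = s(a, b) := by
  obtain ⟨A', hA1, hA2, hA3⟩ := exists_subsuperset_card_eq (s := {a}) (t := A) (n := s)
    (by simpa using ha) (by simpa using hs) hA
  obtain ⟨B', hB1, hB2, hB3⟩ := exists_subsuperset_card_eq (s := {b}) (t := B) (n := s)
    (by simpa using hb) (by simpa using hs) hB
  let eA : Fin s ≃ A' := (A'.equivFinOfCardEq hA3).symm
  let eB : Fin s ≃ B' := (B'.equivFinOfCardEq hB3).symm
  have haA : a ∈ A' := hA1 (mem_singleton_self a)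
  have hbB : b ∈ B' := hB1 (mem_singleton_self b)
  have hne : ∀ u ∈ A, ∀ v ∈ B, u ≠ v := fun u hu v hv h =>
    (disjoint_left.1 hAB hu) (h ▸ hv)
  have hadj' : ∀ u ∈ A, ∀ v ∈ B, (G ⊔ fromEdgeSet {s(a, b)}).Adj u v := by
    intro u hu v hv
    by_cases h : u = a ∧ v = b
    · right
      rw [fromEdgeSet_adj]
      exact ⟨by simp [h.1, h.2], hne u hu v hv⟩
    · left
      exact hadj u hu v hv h
  let f : Fin s ⊕ Fin s → V := Sum.elim (fun i => (eA i : V)) (fun i => (eB i : V))
  have hf : Function.Injective f := by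
    rintro (i | i) (j | j) h
    · have : eA i = eA j := Subtype.ext h
      rw [eA.injective this]
    · exact absurd h (hne _ (hA2 (eA i).2) _ (hB2 (eB j).2))
    · exact absurd h.symm (hne _ (hA2 (eA j).2) _ (hB2 (eB i).2))
    · have : eB i = eB j := Subtype.ext h
      rw [eB.injective this]
  let φ : (completeBipartiteGraph (Fin s) (Fin s)) →g (G ⊔ fromEdgeSet {s(a, b)}) :=
    { toFun := f
      map_rel' := by
        rintro (i | i) (j | j) h
        · simp at h
        · exact hadj' _ (hA2 (eA i).2) _ (hB2 (eB j).2)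
        · exact (hadj' _ (hA2 (eA j).2) _ (hB2 (eB i).2)).symm
        · simp at h }
  refine ⟨⟨φ, hf⟩, Sum.inl (eA.symm ⟨a, haA⟩), Sum.inr (eB.symm ⟨b, hbB⟩), by simp, ?_⟩
  change s(f (Sum.inl (eA.symm ⟨a, haA⟩)), f (Sum.inr (eB.symm ⟨b, hbB⟩))) = _
  simp [f]

/-- The join of a clique on `D` with an independent set `I`. -/
def coneGraph {V : Type} (D I : Finset V) : SimpleGraph V where
  Adj u v := u ≠ v ∧ ((u ∈ D ∧ (v ∈ D ∨ v ∈ I)) ∨ (v ∈ D ∧ (u ∈ D ∨ u ∈ I)))
  symm := ⟨fun _ _ h => ⟨h.1.symm, h.2.symm⟩⟩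
  loopless := ⟨fun _ h => h.1 rfl⟩

/-- In a nonempty subgraph of a cone graph there is an edge `ab` with `b ∈ D` such that `a` has no
neighbour in `I`. -/
lemma exists_good_edge {V : Type} (D I : Finset V) (hDI : Disjoint D I) (H : SimpleGraph V)
    (hH : H ≤ coneGraph D I) (hne : ∃ u v, H.Adj u v) :
    ∃ a b, H.Adj a b ∧ (a ∈ D ∨ a ∈ I) ∧ b ∈ D ∧ ∀ v ∈ I, ¬ H.Adj a v := by
  by_cases h : ∃ a ∈ I, ∃ b, H.Adj a b
  · obtain ⟨a, ha, b, hab⟩ := h
    have haD : a ∉ D := fun h' => disjoint_left.1 hDI h' ha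
    refine ⟨a, b, hab, Or.inr ha, ?_, ?_⟩
    · rcases (hH hab).2 with h' | h'
      · exact absurd h'.1 haD
      · exact h'.1
    · intro v hv hav
      rcases (hH hav).2 with h' | h'
      · exact haD h'.1
      · exact disjoint_left.1 hDI h'.1 hv
  · push Not at h
    obtain ⟨u, v, huv⟩ := hne
    have huI : u ∉ I := fun h' => h u h' v huv
    have hvI : v ∉ I := fun h' => h v h' u huv.symm
    refine ⟨u, v, huv, ?_, ?_, fun w hw huw => h w hw u huw.symm⟩
    · rcases (hH huv).2 with h' | h'
      · exact Or.inl h'.1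
      · exact h'.2
    · rcases (hH huv).2 with h' | h'
      · exact h'.2.resolve_right hvI
      · exact h'.1

lemma two_mul_ncard_cone {V : Type} [Fintype V] [DecidableEq V] (D I : Finset V)
    (hDI : Disjoint D I) :
    2 * (coneGraph D I).edgeSet.ncard = #D * (#D - 1 + 2 * #I) := by
  classical
  rw [← coe_edgeFinset, Set.ncard_coe_finset, ← sum_degrees_eq_twice_card_edges]
  have hD : ∀ v ∈ D, (coneGraph D I).degree v = #D - 1 + #I := by
    intro v hv
    have : (coneGraph D I).neighborFinset v = D.erase v ∪ I := by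
      ext w
      simp only [mem_neighborFinset, coneGraph, mem_union, mem_erase]
      constructor
      · rintro ⟨h1, h2 | h2⟩
        · rcases h2.2 with h3 | h3
          · exact Or.inl ⟨h1.symm, h3⟩
          · exact Or.inr h3
        · exact Or.inl ⟨h1.symm, h2.1⟩
      · rintro (h | h)
        · exact ⟨h.1.symm, Or.inl ⟨hv, Or.inl h.2⟩⟩
        · exact ⟨fun h' => disjoint_left.1 hDI hv (h' ▸ h), Or.inl ⟨hv, Or.inr h⟩⟩
    rw [← card_neighborFinset_eq_degree, this, card_union_of_disjoint, card_erase_of_mem hv]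
    exact disjoint_of_subset_left (erase_subset _ _) hDI
  have hI : ∀ v ∈ I, (coneGraph D I).degree v = #D := by
    intro v hv
    have hvD : v ∉ D := fun h' => disjoint_left.1 hDI h' hv
    have : (coneGraph D I).neighborFinset v = D := by
      ext w
      simp only [mem_neighborFinset, coneGraph]
      constructor
      · rintro ⟨_, h2 | h2⟩
        · exact absurd h2.1 hvD
        · exact h2.1
      · intro h
        exact ⟨fun h' => hvD (h' ▸ h), Or.inr ⟨h, Or.inr hv⟩⟩
    rw [← card_neighborFinset_eq_degree, this]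
  have h0 : ∀ v, v ∉ D ∪ I → (coneGraph D I).degree v = 0 := by
    intro v hv
    rw [mem_union, not_or] at hv
    have : (coneGraph D I).neighborFinset v = ∅ := by
      ext w
      simp only [mem_neighborFinset, coneGraph, notMem_empty, iff_false]
      rintro ⟨_, h2 | h2⟩
      · exact hv.1 h2.1
      · rcases h2.2 with h3 | h3
        · exact hv.1 h3
        · exact hv.2 h3
    rw [← card_neighborFinset_eq_degree, this, card_empty]
  rw [← sum_subset (subset_univ (D ∪ I)) (fun v _ hv => h0 v hv), sum_union hDI,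
    sum_congr rfl hD, sum_congr rfl hI, sum_const, sum_const, smul_eq_mul, smul_eq_mul]
  ring

lemma ncard_compl_add {n : ℕ} (H : SimpleGraph (Fin n)) :
    Hᶜ.edgeSet.ncard + H.edgeSet.ncard = n.choose 2 := by
  classical
  have h1 : (⊤ : SimpleGraph (Fin n)).edgeSet.ncard = n.choose 2 := by
    rw [← coe_edgeFinset, Set.ncard_coe_finset, card_edgeFinset_top_eq_card_choose_two,
      Fintype.card_fin]
  rw [← h1, ← compl_sup_eq_top (x := H), edgeSet_sup, Set.ncard_union_eq]
  rw [disjoint_edgeSet]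
  exact disjoint_compl_left

theorem wsat_upper (s d n : ℕ) (hd : d + 1 ≤ s) (hn : n + 1 = 2 * s + d) :
    wsat n (completeBipartiteGraph (Fin s) (Fin s)) + d * (2 * s - 2) ≤ n.choose 2 := by
  classical
  obtain ⟨DQ, -, hDQ⟩ := exists_subset_card_eq (s := (univ : Finset (Fin n))) (n := d)
    (by simp; omega)
  obtain ⟨IQ, hIQs, hIQ⟩ := exists_subset_card_eq (s := univ \ DQ) (n := s - 1 - d)
    (by rw [card_sdiff_of_subset (subset_univ _)]; simp; omega)
  obtain ⟨DY, hDYs, hDY⟩ := exists_subset_card_eq (s := (univ \ DQ) \ IQ) (n := d)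
    (by rw [card_sdiff_of_subset hIQs, card_sdiff_of_subset (subset_univ _)]; simp; omega)
  set IY : Finset (Fin n) := ((univ \ DQ) \ IQ) \ DY with hIYdef
  have hIY : #IY = s := by
    rw [hIYdef, card_sdiff_of_subset hDYs, card_sdiff_of_subset hIQs,
      card_sdiff_of_subset (subset_univ _)]
    simp; omega
  have m1 : ∀ v, v ∈ IQ → v ∉ DQ := fun v hv => by simpa using hIQs hv
  have m2 : ∀ v, v ∈ DY → v ∉ DQ ∧ v ∉ IQ := fun v hv => by simpa using hDYs hv
  have m3 : ∀ v, v ∈ IY ↔ (v ∉ DQ ∧ v ∉ IQ) ∧ v ∉ DY := fun v => by simp [hIYdef]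
  have dQ : Disjoint DQ IQ := disjoint_right.2 fun v hv => m1 v hv
  have dY : Disjoint DY IY := disjoint_right.2 fun v hv => ((m3 v).1 hv).2
  set H : SimpleGraph (Fin n) := coneGraph DQ IQ ⊔ coneGraph DY IY with hH
  have hdisj : Disjoint (coneGraph DQ IQ) (coneGraph DY IY) := by
    rw [← disjoint_edgeSet, Set.disjoint_left]
    intro e
    induction e using Sym2.ind with
    | h u v =>
      simp only [mem_edgeSet, coneGraph]
      have := m1 u; have := m1 v; have := m2 u; have := m2 v; have := m3 u; have := m3 v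
      grind
  have hcardH : H.edgeSet.ncard = d * (2 * s - 2) := by
    have h1 := two_mul_ncard_cone DQ IQ dQ
    have h2 := two_mul_ncard_cone DY IY dY
    rw [hH, edgeSet_sup, Set.ncard_union_eq (disjoint_edgeSet.2 hdisj)]
    rw [hDQ, hIQ] at h1
    rw [hDY, hIY] at h2
    rcases Nat.eq_zero_or_pos d with h0 | h0
    · subst h0
      omega
    · have h3 : d * (d - 1 + 2 * (s - 1 - d)) + d * (d - 1 + 2 * s) = 2 * (d * (2 * s - 2)) := by
        rw [← mul_add]
        have : d - 1 + 2 * (s - 1 - d) + (d - 1 + 2 * s) = 2 * (2 * s - 2) := by omega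
        rw [this]; ring
      omega
  have hF : ∃ x y, (completeBipartiteGraph (Fin s) (Fin s)).Adj x y :=
    ⟨Sum.inl ⟨0, by omega⟩, Sum.inr ⟨0, by omega⟩, by simp⟩
  have hfill : Fillable (completeBipartiteGraph (Fin s) (Fin s)) Hᶜ := by
    refine fillable_of_progress Hᶜ ?_ _ le_rfl
    intro G hG hGtop
    have hGH : Gᶜ ≤ H := by
      rw [← compl_compl H]; exact compl_le_compl hG
    have hadjG : ∀ u v, u ≠ v → ¬ Gᶜ.Adj u v → G.Adj u v := by
      intro u v huv h
      by_contra h'
      exact h ⟨huv, h'⟩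
    by_cases hY : ∃ u v, (Gᶜ ⊓ coneGraph DY IY).Adj u v
    · obtain ⟨a, b, hab, ha, hb, hI⟩ := exists_good_edge DY IY dY _ inf_le_right hY
      have haQ : a ∉ DQ ∪ IQ := by
        have := m2 a; have := m3 a
        simp only [mem_union]; grind
      refine ⟨s(a, b), by simpa using hab.ne, hab.1.2, ?_⟩
      refine step_of_sets (by omega) G (insert a (DQ ∪ IQ)) (insert b (IY.erase a)) a b
        (by simp) (by simp) ?_ ?_ ?_ ?_
      · rw [Finset.disjoint_left]
        intro v hv hv'
        have := m2 v; have := m3 v; have := hab.ne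
        simp only [mem_insert, mem_union, mem_erase] at hv hv'
        rcases hv' with rfl | hv'
        · grind
        · grind
      · rw [card_insert_of_notMem haQ, card_union_of_disjoint dQ]; omega
      · rw [card_insert_of_notMem (fun h => ((m3 b).1 (mem_of_mem_erase h)).2 hb)]
        have := pred_card_le_card_erase (s := IY) (a := a)
        omega
      · intro u hu v hv huv
        simp only [mem_insert, mem_union, mem_erase] at hu hv
        have hvY : v ∈ DY ∨ v ∈ IY := by
          rcases hv with rfl | hv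
          · exact Or.inl hb
          · exact Or.inr hv.2
        have hvQ : v ∉ DQ ∧ v ∉ IQ := by
          have := m2 v; have := m3 v; grind
        rcases hu with rfl | hu
        · have hv' : v ≠ u ∧ v ∈ IY := by
            rcases hv with rfl | hv
            · exact absurd ⟨rfl, rfl⟩ huv
            · exact hv
          refine hadjG _ _ hv'.1.symm fun h => hI v hv'.2 ⟨h, ?_⟩
          rcases hGH h with h' | h'
          · exfalso
            have := h'.2
            grind
          · exact h'
        · have hune : u ≠ v := by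
            rintro rfl; grind
          refine hadjG _ _ hune fun h => ?_
          rcases hGH h with h' | h'
          · have := h'.2
            grind
          · have := h'.2
            have := m2 u; have := m3 u
            grind
    · have hQ : Gᶜ ≤ coneGraph DQ IQ := by
        intro u v h
        rcases hGH h with h' | h'
        · exact h'
        · exact absurd ⟨u, v, h, h'⟩ hY
      have hne : ∃ u v, Gᶜ.Adj u v := by
        by_contra h
        push Not at h
        apply hGtop
        ext u v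
        simp only [top_adj]
        exact ⟨fun h' => h'.ne, fun h' => hadjG u v h' (h u v)⟩
      obtain ⟨a, b, hab, ha, hb, hI⟩ := exists_good_edge DQ IQ dQ _ hQ hne
      obtain ⟨Y1, hY1s, hY1⟩ := exists_subset_card_eq (s := IY) (n := s - 1) (by omega)
      have mY : ∀ v, v ∈ DY ∨ v ∈ IY → v ∉ DQ ∧ v ∉ IQ := by
        intro v hv
        have := m2 v; have := m3 v; grind
      have hcard2 : #((DY ∪ IY) \ Y1) = d + 1 := by
        rw [card_sdiff_of_subset (hY1s.trans subset_union_right), card_union_of_disjoint dY]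
        omega
      refine ⟨s(a, b), by simpa using hab.ne, hab.2, ?_⟩
      refine step_of_sets (by omega) G (insert a Y1)
        (insert b (IQ.erase a ∪ ((DY ∪ IY) \ Y1))) a b (by simp) (by simp) ?_ ?_ ?_ ?_
      · rw [Finset.disjoint_left]
        intro v hv hv'
        have := mY v; have := hab.ne; have := @hY1s v
        simp only [mem_insert, mem_union, mem_erase, mem_sdiff] at hv hv'
        rcases hv with rfl | hv
        · grind
        · rcases hv' with rfl | hv'
          · grind
          · grind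
      · rw [card_insert_of_notMem]
        · omega
        · intro h
          have := mY a (Or.inr (hY1s h))
          grind
      · rw [card_insert_of_notMem, card_union_of_disjoint, hcard2]
        · have := pred_card_le_card_erase (s := IQ) (a := a)
          omega
        · rw [Finset.disjoint_left]
          intro v hv hv'
          have := mY v
          simp only [mem_union, mem_erase, mem_sdiff] at hv hv'
          grind
        · have := mY b; have := m1 b
          simp only [mem_union, mem_erase, mem_sdiff]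
          grind
      · intro u hu v hv huv
        simp only [mem_insert, mem_union, mem_erase, mem_sdiff] at hu hv
        rcases hu with rfl | hu
        · rcases hv with rfl | hv | hv
          · exact absurd ⟨rfl, rfl⟩ huv
          · exact hadjG _ _ hv.1.symm (hI v hv.2)
          · have := mY v hv.1
            have hune : u ≠ v := by
              rintro rfl; grind
            refine hadjG _ _ hune fun h => ?_
            have := (hQ h).2
            grind
        · have := mY u (Or.inr (hY1s hu))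
          have hune : u ≠ v := by
            rintro rfl
            have := m1 u
            grind
          refine hadjG _ _ hune fun h => ?_
          have := (hQ h).2
          grind
  have h1 := wsat_le_of_fillable hF _ hfill
  have h2 := ncard_compl_add H
  omega

end Pool.Agent.MP_2640cc_co

end MrgPart5

-- ======== part 6: formerly Pool.Agent.MP_2640cc_co.Exact
section MrgPart6

/-!
The weak saturation number of `K_{s,s}` on `2s + j` vertices for `j + 3 ≤ s`.
-/

namespace Pool.Agent.MP_2640cc_co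

open Finset SimpleGraph

/-- One step of the filling process. -/
lemma step_data {V : Type} [DecidableEq V] {s : ℕ} {H : SimpleGraph V}
    (c : (completeBipartiteGraph (Fin s) (Fin s)).Copy H) {x y : Fin s ⊕ Fin s}
    (hxy : (completeBipartiteGraph (Fin s) (Fin s)).Adj x y) :
    ∃ (W : Bool → Finset V) (w : Bool → V), (∀ b, (W b).card = s) ∧
      (∀ b p, p ∈ W b → p ∉ W (!b)) ∧ (∀ b, w b ∈ W b) ∧ s(w true, w false) = s(c x, c y) ∧
      ∀ b p q, p ∈ W b → q ∈ W (!b) → H.Adj p q := by
  have hinj : Function.Injective c := c.injective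
  let W : Bool → Finset V := fun b =>
    cond b (univ.image fun t => c (Sum.inl t)) (univ.image fun t => c (Sum.inr t))
  have hadj : ∀ b p q, p ∈ W b → q ∈ W (!b) → H.Adj p q := by
    intro b p q hp hq
    cases b
    · obtain ⟨t, _, rfl⟩ := mem_image.1 hp
      obtain ⟨t', _, rfl⟩ := mem_image.1 hq
      exact c.toHom.map_adj (by simp)
    · obtain ⟨t, _, rfl⟩ := mem_image.1 hp
      obtain ⟨t', _, rfl⟩ := mem_image.1 hq
      exact c.toHom.map_adj (by simp)
  have hcard : ∀ b, (W b).card = s := by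
    intro b
    cases b
    · exact (card_image_of_injective _ (hinj.comp Sum.inr_injective)).trans (by simp)
    · exact (card_image_of_injective _ (hinj.comp Sum.inl_injective)).trans (by simp)
  have hdisj : ∀ b p, p ∈ W b → p ∉ W (!b) := fun b p hp hq => (hadj b p p hp hq).ne rfl
  rcases x with x | x <;> rcases y with y | y
  · simp at hxy
  · refine ⟨W, fun b => cond b (c (Sum.inl x)) (c (Sum.inr y)), hcard, hdisj, ?_, rfl, hadj⟩
    rintro (_ | _)
    · exact mem_image_of_mem _ (mem_univ y)
    · exact mem_image_of_mem _ (mem_univ x)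
  · refine ⟨W, fun b => cond b (c (Sum.inl y)) (c (Sum.inr x)), hcard, hdisj, ?_, Sym2.eq_swap,
      hadj⟩
    rintro (_ | _)
    · exact mem_image_of_mem _ (mem_univ x)
    · exact mem_image_of_mem _ (mem_univ y)
  · simp at hxy

/-- A fillable graph misses at most `(j+1)(2s-2)` edges. -/
lemma missing_le {a j : ℕ} (hja : j + 2 ≤ a) (G : SimpleGraph (Fin (2 * (a + 1) + j)))
    (hG : Fillable (completeBipartiteGraph (Fin (a + 1)) (Fin (a + 1))) G) :
    Gᶜ.edgeSet.ncard ≤ (j + 1) * (2 * a) := by
  classical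
  obtain ⟨l, hnd, hmem, hcopy⟩ := hG
  have hlen : Gᶜ.edgeSet.ncard = l.length := by
    rw [← List.toFinset_card_of_nodup hnd, ← Set.ncard_coe_finset]
    congr 1
    ext e
    rw [List.coe_toFinset, Set.mem_ofPred_eq, hmem]
    induction e using Sym2.ind with
    | _ u v => simp
  have hstep : ∀ i : ℕ, ∃ (W : Bool → Finset (Fin (2 * (a + 1) + j)))
      (w : Bool → Fin (2 * (a + 1) + j)), ∀ hi : i < l.length, (∀ b, (W b).card = a + 1) ∧
      (∀ b p, p ∈ W b → p ∉ W (!b)) ∧ (∀ b, w b ∈ W b) ∧ s(w true, w false) = l[i] ∧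
      ∀ b p q, p ∈ W b → q ∈ W (!b) → (G ⊔ fromEdgeSet {e | e ∈ l.take (i + 1)}).Adj p q := by
    intro i
    by_cases hi : i < l.length
    · obtain ⟨c, x, y, hxy, hc⟩ := hcopy ⟨i, hi⟩
      obtain ⟨W, w, h1, h2, h3, h4, h5⟩ := step_data c hxy
      exact ⟨W, w, fun _ => ⟨h1, h2, h3, h4.trans hc, h5⟩⟩
    · exact ⟨fun _ => ∅, fun _ => ⟨0, by omega⟩, fun h => absurd h hi⟩
  choose W w hW using hstep
  let C : Chain (Fin (2 * (a + 1) + j)) a l.length :=
    { W := W
      w := w
      card := fun i hi => (hW i hi).1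
      disj := fun i hi => (hW i hi).2.1
      mem := fun i hi => (hW i hi).2.2.1
      later := by
        intro i k hik hk b h1 h2
        have he := (hW k hk).2.2.2.1
        rcases (hW i (hik.trans hk)).2.2.2.2 b _ _ h1 h2 with h | h
        · rw [← mem_edgeSet, he] at h
          exact ((hmem _).1 (List.getElem_mem hk)).2 h
        · rw [fromEdgeSet_adj, he] at h
          obtain ⟨t, ht, hte⟩ := List.mem_take_iff_getElem.1 h.1
          have := (hnd.getElem_inj_iff).1 hte
          omega }
  rw [hlen]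
  exact C.length_le (by simp; omega) hja

theorem wsat_exact (s j : ℕ) (hj : j + 3 ≤ s) :
    wsat (2 * s + j) (completeBipartiteGraph (Fin s) (Fin s)) + (j + 1) * (2 * s - 2) =
      (2 * s + j).choose 2 := by
  refine le_antisymm (wsat_upper s (j + 1) (2 * s + j) (by omega) (by omega)) ?_
  obtain ⟨a, rfl⟩ : ∃ a, s = a + 1 := ⟨s - 1, by omega⟩
  rw [show 2 * (a + 1) - 2 = 2 * a by omega, ← Nat.sub_le_iff_le_add]
  refine le_wsat ⟨Sum.inl 0, Sum.inr 0, by simp⟩ fun G hG => ?_
  have h1 := missing_le (by omega) G hG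
  have h2 := ncard_compl_add G
  omega

end Pool.Agent.MP_2640cc_co

end MrgPart6

-- marker of a merged file
example : 731051 + 627374 = 731051 + 627374 := rfl
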