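import Pool.Agent.MP_2640cc_co.Fill

namespace Pool.Agent.MP_2640cc_co

open SimpleGraph Finset Matrix

/-- The moment vector. -/
def mom (m : ℕ) (t : ℚ) : Fin m → ℚ := fun i => t ^ (i : ℕ)

lemma exists_relation {ι : Type} [Fintype ι] [DecidableEq ι] {m : ℕ} (hm : m + 1 = Fintype.card ι)
    (t : ι → ℚ) (ht : Function.Injective t) :
    ∃ w : ι → ℚ, (∀ i, w i ≠ 0) ∧ ∑ i, w i • mom m (t i) = 0 := by
  refine ⟨fun i => (∏ j ∈ univ.erase i, (t i - t j))⁻¹, ?_, ?_⟩
  · intro i
    apply inv_ne_zero
    rw [prod_ne_zero_iff]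
    intro j hj h
    exact (mem_erase.1 hj).1 (ht (sub_eq_zero.1 h)).symm
  · funext k
    have h := Lagrange.coeff_eq_sum (s := (univ : Finset ι)) (v := t) ht.injOn
      (P := Polynomial.X ^ (k : ℕ)) (by
        rw [Polynomial.degree_X_pow, card_univ, ← hm]
        exact_mod_cast Nat.lt_succ_of_lt k.2)
    rw [Polynomial.coeff_X_pow, if_neg (by rw [card_univ, ← hm]; have := k.2; omega)] at h
    simp only [Finset.sum_apply, Pi.smul_apply, smul_eq_mul, mom, Pi.zero_apply]
    rw [h]
    refine sum_congr rfl fun i _ => ?_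
    simp [div_eq_inv_mul]

/-- A skew matrix from its entries above the diagonal. -/
def skewOf (m : ℕ) : ({p : Fin m × Fin m // p.1 < p.2} → ℚ) →ₗ[ℚ] Matrix (Fin m) (Fin m) ℚ where
  toFun c := Matrix.of fun i j =>
    if h : i < j then c ⟨(i, j), h⟩ else if h' : j < i then - c ⟨(j, i), h'⟩ else 0
  map_add' c c' := by
    ext i j
    simp only [of_apply, Matrix.add_apply, Pi.add_apply]
    split_ifs <;> ring
  map_smul' a c := by
    ext i j
    simp only [of_apply, Matrix.smul_apply, Pi.smul_apply, smul_eq_mul, RingHom.id_apply]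
    split_ifs <;> ring

lemma skewOf_transpose {m : ℕ} (c : {p : Fin m × Fin m // p.1 < p.2} → ℚ) :
    (skewOf m c)ᵀ = - skewOf m c := by
  ext i j
  simp only [skewOf, LinearMap.coe_mk, AddHom.coe_mk, transpose_apply, of_apply, Matrix.neg_apply]
  rcases lt_trichotomy i j with h | h | h
  · simp [h, not_lt_of_gt h]
  · simp [h]
  · simp [h, not_lt_of_gt h]

lemma skewOf_eq_zero {m : ℕ} (c : {p : Fin m × Fin m // p.1 < p.2} → ℚ) (h : skewOf m c = 0) :
    c = 0 := by
  funext p
  have := congrFun (congrFun h p.1.1) p.1.2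
  simpa [skewOf, p.2] using this

lemma skew_form_symm {m : ℕ} {M : Matrix (Fin m) (Fin m) ℚ} (hM : Mᵀ = -M) (x y : Fin m → ℚ) :
    x ⬝ᵥ M *ᵥ y = - (y ⬝ᵥ M *ᵥ x) := by
  rw [dotProduct_mulVec, ← mulVec_transpose, hM, neg_mulVec, dotProduct_comm, dotProduct_neg]

theorem wsat_lower (s n : ℕ) (hs : 1 ≤ s) (hn : 2 * s - 1 ≤ n) :
    (2 * s - 1).choose 2 ≤ wsat n (completeBipartiteGraph (Fin s) (Fin s)) := by
  classical
  have hF : ∃ x y, (completeBipartiteGraph (Fin s) (Fin s)).Adj x y :=
    ⟨Sum.inl ⟨0, by omega⟩, Sum.inr ⟨0, by omega⟩, by simp⟩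
  refine le_wsat hF fun G hG => ?_
  set m := 2 * s - 1 with hm
  let q : Fin n → Fin m → ℚ := fun v => mom m (v : ℕ)
  let Φ : ({p : Fin m × Fin m // p.1 < p.2} → ℚ) →ₗ[ℚ] (G.edgeSet → ℚ) :=
    { toFun := fun c e => q e.1.out.1 ⬝ᵥ skewOf m c *ᵥ q e.1.out.2
      map_add' := by
        intro c c'
        funext e
        simp [add_mulVec]
      map_smul' := by
        intro a c
        funext e
        simp [smul_mulVec] }
  have hinj : Function.Injective Φ := by
    rw [← LinearMap.ker_eq_bot, LinearMap.ker_eq_bot']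
    intro c hc
    have hM := skewOf_transpose c
    set M := skewOf m c with hMdef
    have hself : ∀ x : Fin m → ℚ, x ⬝ᵥ M *ᵥ x = 0 := fun x => by
      have := skew_form_symm hM x x
      linarith
    have hall : ∀ u v : Fin n, u ≠ v → q u ⬝ᵥ M *ᵥ q v = 0 := by
      refine fillable_induct hG (fun u v => q u ⬝ᵥ M *ᵥ q v = 0) ?_ ?_ ?_
      · intro u v h
        rw [skew_form_symm hM, h, neg_zero]
      · intro u v huv
        have h1 : q (s(u, v)).out.1 ⬝ᵥ M *ᵥ q (s(u, v)).out.2 = 0 :=
          congrFun hc ⟨s(u, v), huv⟩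
        have h2 : s((s(u, v)).out.1, (s(u, v)).out.2) = s(u, v) := Quot.out_eq _
        rcases Sym2.eq_iff.1 h2 with ⟨h3, h4⟩ | ⟨h3, h4⟩
        · rwa [h3, h4] at h1
        · rw [h3, h4] at h1
          rw [skew_form_symm hM, h1, neg_zero]
      · intro f hf x y hxy hP
        obtain ⟨w, hw, hrel⟩ := exists_relation (ι := Fin s ⊕ Fin s) (m := m)
          (by simp; omega) (fun z => ((f z : ℕ) : ℚ)) (fun z z' h => hf (Fin.ext (Nat.cast_injective (R := ℚ) h)))
        rw [Fintype.sum_sum_type] at hrel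
        have hsum : ∑ i : Fin s, ∑ j : Fin s,
            w (Sum.inl i) * w (Sum.inr j) * (q (f (Sum.inl i)) ⬝ᵥ M *ᵥ q (f (Sum.inr j))) = 0 := by
          have h1 := hself (∑ i : Fin s, w (Sum.inl i) • q (f (Sum.inl i)))
          have h2 : ∑ i : Fin s, w (Sum.inl i) • q (f (Sum.inl i)) =
              - ∑ j : Fin s, w (Sum.inr j) • q (f (Sum.inr j)) := eq_neg_of_add_eq_zero_left hrel
          nth_rewrite 2 [h2] at h1
          rw [mulVec_neg, dotProduct_neg, neg_eq_zero, sum_dotProduct] at h1
          rw [← h1]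
          refine sum_congr rfl fun i _ => ?_
          rw [mulVec_sum, dotProduct_sum]
          refine sum_congr rfl fun j _ => ?_
          rw [mulVec_smul, smul_dotProduct, dotProduct_smul, smul_eq_mul, smul_eq_mul, mul_assoc]
        have hkey : ∀ i j : Fin s, (∀ i' j' : Fin s, ¬ (i' = i ∧ j' = j) →
            q (f (Sum.inl i')) ⬝ᵥ M *ᵥ q (f (Sum.inr j')) = 0) →
            q (f (Sum.inl i)) ⬝ᵥ M *ᵥ q (f (Sum.inr j)) = 0 := by
          intro i j h
          rw [sum_eq_single i, sum_eq_single j] at hsum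
          · exact (mul_eq_zero.1 hsum).resolve_left (mul_ne_zero (hw _) (hw _))
          · intro j' _ hj'
            rw [h i j' (fun h' => hj' h'.2), mul_zero]
          · simp
          · intro i' _ hi'
            refine sum_eq_zero fun j' _ => ?_
            rw [h i' j' (fun h' => hi' h'.1), mul_zero]
          · simp
        rcases x with i | i <;> rcases y with j | j
        · simp at hxy
        · refine hkey i j fun i' j' h => hP _ _ (by simp) ?_
          intro h'
          apply h
          simpa using h'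
        · rw [skew_form_symm hM, neg_eq_zero]
          refine hkey j i fun i' j' h => hP _ _ (by simp) ?_
          intro h'
          apply h
          simpa using h'
        · simp at hxy
    have hall' : ∀ u v : Fin n, q u ⬝ᵥ M *ᵥ q v = 0 := fun u v => by
      by_cases h : u = v
      · rw [h]; exact hself _
      · exact hall u v h
    let W : Matrix (Fin m) (Fin m) ℚ := vandermonde fun i => ((i : ℕ) : ℚ)
    have hW : W.det ≠ 0 := det_vandermonde_ne_zero_iff.2 fun i j h =>
      Fin.ext (by exact_mod_cast h)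
    have hWM : W * M * Wᵀ = 0 := by
      ext i j
      have := hall' (Fin.castLE hn i) (Fin.castLE hn j)
      rw [Matrix.mul_assoc, mul_apply']
      exact this
    have hu : IsUnit W := (isUnit_iff_isUnit_det W).2 (Ne.isUnit hW)
    have hu' : IsUnit Wᵀ := (isUnit_iff_isUnit_det Wᵀ).2 (by rw [det_transpose]; exact Ne.isUnit hW)
    apply skewOf_eq_zero
    rw [hu'.mul_left_eq_zero, hu.mul_right_eq_zero] at hWM
    exact hWM
  have h := LinearMap.finrank_le_finrank_of_injective hinj
  rw [Module.finrank_fintype_fun_eq_card, Module.finrank_fintype_fun_eq_card,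
    Fintype.card_subtype, Fintype.card_product_filter_lt, Fintype.card_fin] at h
  rwa [← Nat.card_coe_set_eq, Nat.card_eq_fintype_card]

end Pool.Agent.MP_2640cc_co
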